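import Mathlib
import Pool.Agent.X169.RadFinal

/-!
# The full strong law for random sets of bounded dimension in B-convex spaces
-/

namespace Pool.Agent.Results.MP_d665d0_pr.BoundedDimension

open MeasureTheory ProbabilityTheory Filter Topology Set X169.RS

/-- `X` is B-convex. -/
def BConvex (X : Type*) [NormedAddCommGroup X] [NormedSpace ℝ X] : Prop :=
  ∃ k : ℕ, 2 ≤ k ∧ ∃ ε : ℝ, 0 < ε ∧ ∀ x : Fin k → X, (∀ i, ‖x i‖ ≤ 1) →
    ∃ s : Fin k → ℝ, (∀ i, s i = 1 ∨ s i = -1) ∧ ‖∑ i, s i • x i‖ ≤ k * (1 - ε)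

/-- the average `(1/n) (A_0 + ... + A_{n-1})` -/
noncomputable def mean {X : Type*} [NormedAddCommGroup X] [NormedSpace ℝ X] (A : ℕ → BC X)
    (n : ℕ) : BC X := ((n : ℝ)⁻¹) • ∑ i ∈ Finset.range n, A i

/-- The full form of the strong law of large numbers holds in every B-convex space for the random
sets all of whose values have dimension at most `d` (in particular for those all of whose values
have dimension exactly `d`). -/
theorem result (X : Type*) [NormedAddCommGroup X] [NormedSpace ℝ X] (hX : BConvex X) (d : ℕ)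
    (Ω : Type*) [MeasurableSpace Ω] (μ : Measure Ω) [IsProbabilityMeasure μ]
    (Ψ : ℕ → Ω → BC X) (U : ℕ → BC X)
    (hball : ∃ r : ℝ, ∀ n ω, (Ψ n ω).carrier ⊆ Metric.closedBall 0 r)
    (hdim : ∀ n ω, Module.rank ℝ (vectorSpan ℝ (Ψ n ω).carrier) ≤ (d : Cardinal))
    (hind : IndepSets Ψ μ) (hexp : ∀ n, HasExpectation (Ψ n) (U n) μ) :
    ∀ᵐ ω ∂μ, Tendsto
      (fun n => Metric.hausdorffDist (mean (fun i => Ψ i ω) n).carrier (mean U n).carrier)
      atTop (𝓝 0) := by
  obtain ⟨r, hr⟩ := hball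
  exact X169.RadFinal.main hX d Ψ U (fun n ω a ha => mem_closedBall_zero_iff.1 (hr n ω ha)) hdim
    hind hexp

end Pool.Agent.Results.MP_d665d0_pr.BoundedDimension
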